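import Mathlib

/-!
# The Grigorchuk group is a quotient of the fundamental group of the closed surface of genus two

The generators `b`, `c` commute, so `⁅a, b⁆ * ⁅b, a * c⁆ = 1`, and `a`, `b`, `a * c` generate.
-/

set_option autoImplicit false

namespace Pool.Agent.Results.MP_a9f5dc_al.QuotientOfGenusTwo

open scoped commutatorElement

/-- The names of the four generators. -/
inductive Gen
  | a | b | c | d

/-- The action of the four generators of the Grigorchuk group on the finite words over `{0, 1}`
(`false` is `0`, `true` is `1`):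
`a(0w) = 1w`, `a(1w) = 0w`, `b(0w) = 0 a(w)`, `b(1w) = 1 c(w)`, `c(0w) = 0 a(w)`, `c(1w) = 1 d(w)`,
`d(0w) = 0w`, `d(1w) = 1 b(w)`. -/
def act : Gen → List Bool → List Bool
  | _, [] => []
  | .a, x :: w => (!x) :: w
  | .b, false :: w => false :: act .a w
  | .b, true :: w => true :: act .c w
  | .c, false :: w => false :: act .a w
  | .c, true :: w => true :: act .d w
  | .d, false :: w => false :: w
  | .d, true :: w => true :: act .b w

lemma a_a (w : List Bool) : act .a (act .a w) = w := by
  cases w <;> simp [act]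

lemma act_act (g : Gen) (w : List Bool) : act g (act g w) = w := by
  induction w generalizing g with
  | nil => cases g <;> rfl
  | cons x w ih =>
    cases g <;> cases x <;> simp [act, ih]

/-- The generators as permutations of the vertices of the tree. -/
def gen (g : Gen) : Equiv.Perm (List Bool) where
  toFun := act g
  invFun := act g
  left_inv := act_act g
  right_inv := act_act g

/-- The (first) Grigorchuk group. -/
def Grigorchuk : Subgroup (Equiv.Perm (List Bool)) :=
  Subgroup.closure {gen .a, gen .b, gen .c, gen .d}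

/-- The fundamental group of the closed orientable surface of genus `g`:
`⟨x_1, y_1, …, x_g, y_g | [x_1, y_1] ⋯ [x_g, y_g] = 1⟩`, with `x_i` the generator `Sum.inl i` and
`y_i` the generator `Sum.inr i`. -/
abbrev SurfaceGroup (g : ℕ) : Type :=
  PresentedGroup ({(List.ofFn fun i : Fin g =>
    ⁅FreeGroup.of (Sum.inl i : Fin g ⊕ Fin g), FreeGroup.of (Sum.inr i : Fin g ⊕ Fin g)⁆).prod} :
      Set (FreeGroup (Fin g ⊕ Fin g)))

lemma rel (w : List Bool) : act .b (act .c w) = act .d w ∧ act .c (act .d w) = act .b w ∧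
    act .d (act .b w) = act .c w ∧ act .c (act .b w) = act .d w ∧ act .d (act .c w) = act .b w ∧
    act .b (act .d w) = act .c w := by
  induction w with
  | nil => simp [act]
  | cons x w ih =>
    obtain ⟨h1, h2, h3, h4, h5, h6⟩ := ih
    cases x
    · simp [act, a_a]
    · simp [act, h1, h2, h3, h4, h5, h6]

lemma bc : gen .b * gen .c = gen .d := by
  ext1 w
  exact (rel w).1

lemma cb : gen .c * gen .b = gen .d := by
  ext1 w
  exact (rel w).2.2.2.1

/-- the generators as elements of the group -/
def G (g : Gen) : Grigorchuk := ⟨gen g, by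
  apply Subgroup.subset_closure
  cases g <;> simp⟩

lemma G_bc : G .b * G .c = G .d := Subtype.ext bc

lemma G_cb : G .c * G .b = G .d := Subtype.ext cb

/-- the images of the generators of the surface group -/
def img : Fin 2 ⊕ Fin 2 → Grigorchuk
  | Sum.inl i => if i = 0 then G .a else G .b
  | Sum.inr i => if i = 0 then G .b else G .a * G .c

lemma rel_img : ⁅G .a, G .b⁆ * ⁅G .b, G .a * G .c⁆ = 1 := by
  have h : G .c * (G .b)⁻¹ * (G .c)⁻¹ = (G .b)⁻¹ := by
    have h1 : G .c * G .b = G .b * G .c := by rw [G_bc, G_cb]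
    calc G .c * (G .b)⁻¹ * (G .c)⁻¹ = (G .c * G .b * (G .c)⁻¹)⁻¹ := by group
      _ = (G .b * G .c * (G .c)⁻¹)⁻¹ := by rw [h1]
      _ = _ := by group
  calc ⁅G .a, G .b⁆ * ⁅G .b, G .a * G .c⁆
      = ⁅G .a, G .b⁆ * (G .b * G .a * (G .c * (G .b)⁻¹ * (G .c)⁻¹) * (G .a)⁻¹) := by
        simp only [commutatorElement_def]
        group
    _ = 1 := by
      rw [h, commutatorElement_def]
      group

/-- The Grigorchuk group is a quotient of the fundamental group of the closed orientable surface of
genus two. -/
theorem result : ∃ f : SurfaceGroup 2 →* Grigorchuk, Function.Surjective f := by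
  have hrel : ∀ r ∈ ({(List.ofFn fun i : Fin 2 =>
    ⁅FreeGroup.of (Sum.inl i : Fin 2 ⊕ Fin 2), FreeGroup.of (Sum.inr i : Fin 2 ⊕ Fin 2)⁆).prod} :
      Set (FreeGroup (Fin 2 ⊕ Fin 2))), FreeGroup.lift img r = 1 := by
    rintro r rfl
    simp only [List.ofFn_succ, List.ofFn_zero, List.prod_cons, List.prod_nil, mul_one, map_mul,
      map_commutatorElement, FreeGroup.lift_apply_of]
    exact rel_img
  refine ⟨PresentedGroup.toGroup hrel, ?_⟩
  have h1 : ∀ x, img x ∈ (PresentedGroup.toGroup hrel).range := fun x =>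
    ⟨PresentedGroup.of x, PresentedGroup.toGroup.of hrel⟩
  have ha : G .a ∈ (PresentedGroup.toGroup hrel).range := h1 (Sum.inl 0)
  have hb : G .b ∈ (PresentedGroup.toGroup hrel).range := h1 (Sum.inl 1)
  have hac : G .a * G .c ∈ (PresentedGroup.toGroup hrel).range := h1 (Sum.inr 1)
  have hc : G .c ∈ (PresentedGroup.toGroup hrel).range := by
    have := Subgroup.mul_mem _ (Subgroup.inv_mem _ ha) hac
    rwa [inv_mul_cancel_left] at this
  have hd : G .d ∈ (PresentedGroup.toGroup hrel).range := by
    rw [← G_bc]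
    exact Subgroup.mul_mem _ hb hc
  have h2 : Grigorchuk ≤ ((PresentedGroup.toGroup hrel).range).map Grigorchuk.subtype := by
    unfold Grigorchuk
    rw [Subgroup.closure_le]
    rintro _ (rfl | rfl | rfl | rfl)
    · exact ⟨G .a, ha, rfl⟩
    · exact ⟨G .b, hb, rfl⟩
    · exact ⟨G .c, hc, rfl⟩
    · exact ⟨G .d, hd, rfl⟩
  intro g
  obtain ⟨g', hg', h3⟩ := h2 g.2
  have h4 : g' = g := Subtype.ext h3
  rw [← h4]
  exact hg'

end Pool.Agent.Results.MP_a9f5dc_al.QuotientOfGenusTwo
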